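import Mathlib
import Pool.Agent.Helper61.P3.St1

/-!
# P3 module RDN: the local ridge theorem
-/

set_option autoImplicit false

open MeasureTheory Set Filter Topology
open scoped ENNReal RealInnerProductSpace

namespace Pool.Agent.Helper17.P3

open Pool.Agent.Helper61.P3 Pool.Agent.Helper20.RG Pool.Agent.Helper20.EQ
open Pool.Agent.Helper68.LM (Pl BB Bd Av HL ft fm DQ)
open Pool.Agent.Helper68.EP (elt GapP)

private lemma pr_continuous (s : ℝ) : Continuous (pr s) := by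
  unfold pr
  fun_prop

private lemma pr_isOpenMap (hPT : Pool.Agent.Helper20.RG.StPT) (s : ℝ) : IsOpenMap (pr s) := by
  obtain ⟨h1, -⟩ := hPT
  have h := ((EuclideanSpace.proj (1 : Fin 2) : EuclideanSpace ℝ (Fin 2) →L[ℝ] ℝ) -
    s • (EuclideanSpace.proj (0 : Fin 2) : EuclideanSpace ℝ (Fin 2) →L[ℝ] ℝ)).isOpenMap (by
      intro ρ
      refine ⟨pt 0 ρ, ?_⟩
      simp [(h1 0 ρ).1, (h1 0 ρ).2])
  exact h

private lemma meas_Om (I : Set (ℤ × ℤ)) : MeasurableSet (Om I) := by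
  unfold Om
  refine MeasurableSet.biUnion (Set.to_countable I) fun a _ => ?_
  unfold dI5
  exact measurableSet_Icc

private lemma meas_ind (O : Set ℝ) (hO : MeasurableSet O) : Measurable (ind O) := by
  unfold ind
  exact measurable_const.indicator hO

private lemma meas_Gs (N : ℕ) (s : ℕ → ℝ) (I : ℕ → Set (ℤ × ℤ)) : Measurable (Gs N s I) := by
  unfold Gs
  refine Finset.measurable_sum _ fun j _ => ?_
  exact (meas_ind _ (meas_Om _)).comp (pr_continuous _).measurable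

private lemma meas_Sq (z : Pl) (r : ℝ) : MeasurableSet (Sq z r) := by
  unfold Sq
  refine MeasurableSet.inter ?_ ?_
  · have h : Continuous fun y : Pl => |y 0 - z 0| := by fun_prop
    exact measurableSet_le h.measurable measurable_const
  · have h : Continuous fun y : Pl => |y 1 - z 1| := by fun_prop
    exact measurableSet_le h.measurable measurable_const

private lemma cut_eq_one (z : Pl) (L₂ : ℝ) (h : 0 < L₂) (y : Pl) (hy : y ∈ Sq z L₂) :
    cut z L₂ y = 1 := by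
  have h1 : ∀ t : ℝ, |t| ≤ 1 → c1 t = 1 := by
    intro t ht
    unfold c1
    rw [min_eq_left (by linarith), max_eq_right zero_le_one]
  obtain ⟨h2, h3⟩ := hy
  unfold cut
  rw [h1, h1, mul_one]
  · rw [abs_div, abs_of_pos h, div_le_one h]
    exact h3
  · rw [abs_div, abs_of_pos h, div_le_one h]
    exact h2

/-- comparison on whole intervals of scale `ℓ` -/
private lemma whole (κ : ℤ → ℝ) (ℓ : ℤ) (f g : ℝ → ℝ≥0∞)
    (hfg : ∀ t, ∫⁻ r in Ia κ ℓ t, f r ≤ ∫⁻ r in Ia κ ℓ t, g r) (x A B : ℝ)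
    (hAB : A + (2 : ℝ) ^ ℓ ≤ B) :
    ∫⁻ t in Icc (x - A) (x + A), f t ≤ ∫⁻ t in Icc (x - B) (x + B), g t := by
  have h2 : (0 : ℝ) < (2 : ℝ) ^ ℓ := zpow_pos (by norm_num) ℓ
  set J : ℤ → Set ℝ := fun n => Ia κ ℓ (κ ℓ + (n : ℝ) * (2 : ℝ) ^ ℓ) with hJ
  have hJn : ∀ n : ℤ, J n = Ico (κ ℓ + (n : ℝ) * (2 : ℝ) ^ ℓ)
      (κ ℓ + (n : ℝ) * (2 : ℝ) ^ ℓ + (2 : ℝ) ^ ℓ) := by
    intro n
    have h3 : lft κ ℓ (κ ℓ + (n : ℝ) * (2 : ℝ) ^ ℓ) = κ ℓ + (n : ℝ) * (2 : ℝ) ^ ℓ := by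
      unfold lft
      have h4 : (κ ℓ + (n : ℝ) * (2 : ℝ) ^ ℓ - κ ℓ) / (2 : ℝ) ^ ℓ = (n : ℝ) := by
        field_simp
        ring
      rw [h4, Int.floor_intCast]
    show Ia κ ℓ (κ ℓ + (n : ℝ) * (2 : ℝ) ^ ℓ) = _
    unfold Ia
    rw [h3]
  have hmeas : ∀ n, MeasurableSet (J n) := by
    intro n
    rw [hJn]
    exact measurableSet_Ico
  have hdis : ∀ n m : ℤ, ∀ t, t ∈ J n → t ∈ J m → n ≤ m := by
    intro n m t hn hm
    rw [hJn] at hn hm
    by_contra hlt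
    push Not at hlt
    have h5 : ((m : ℝ) + 1) ≤ n := by exact_mod_cast hlt
    have h6 : ((m : ℝ) + 1) * (2 : ℝ) ^ ℓ ≤ n * (2 : ℝ) ^ ℓ :=
      mul_le_mul_of_nonneg_right h5 h2.le
    have h7 := hn.1
    have h8 := hm.2
    linarith
  set S : Set ℤ := {n | (J n ∩ Icc (x - A) (x + A)).Nonempty} with hS
  have hpd : S.PairwiseDisjoint J := by
    intro n _ m _ hnm
    rw [Function.onFun, Set.disjoint_left]
    intro t hn hm
    exact hnm (le_antisymm (hdis n m t hn hm) (hdis m n t hm hn))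
  have hsub1 : Icc (x - A) (x + A) ⊆ ⋃ n ∈ S, J n := by
    intro t ht
    have h9 : t ∈ J ⌊(t - κ ℓ) / (2 : ℝ) ^ ℓ⌋ := by
      rw [hJn]
      have h10 := Int.floor_le ((t - κ ℓ) / (2 : ℝ) ^ ℓ)
      have h11 := Int.lt_floor_add_one ((t - κ ℓ) / (2 : ℝ) ^ ℓ)
      rw [le_div_iff₀ h2] at h10
      rw [div_lt_iff₀ h2] at h11
      constructor
      · linarith
      · linarith
    exact mem_biUnion (show ⌊(t - κ ℓ) / (2 : ℝ) ^ ℓ⌋ ∈ S from ⟨t, h9, ht⟩) h9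
  have hsub2 : (⋃ n ∈ S, J n) ⊆ Icc (x - B) (x + B) := by
    intro t ht
    rw [mem_iUnion₂] at ht
    obtain ⟨n, ⟨r, hr1, hr2⟩, htn⟩ := ht
    rw [hJn] at hr1 htn
    have h12 := hr1.1
    have h13 := hr1.2
    have h14 := htn.1
    have h15 := htn.2
    have h16 := hr2.1
    have h17 := hr2.2
    constructor
    · linarith
    · linarith
  calc ∫⁻ t in Icc (x - A) (x + A), f t ≤ ∫⁻ t in ⋃ n ∈ S, J n, f t :=
        lintegral_mono_set hsub1
    _ = ∑' n : S, ∫⁻ t in J n, f t :=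
        lintegral_biUnion (to_countable S) (fun n _ => hmeas n) hpd f
    _ ≤ ∑' n : S, ∫⁻ t in J n, g t := ENNReal.tsum_le_tsum fun n => hfg _
    _ = ∫⁻ t in ⋃ n ∈ S, J n, g t :=
        (lintegral_biUnion (to_countable S) (fun n _ => hmeas n) hpd g).symm
    _ ≤ ∫⁻ t in Icc (x - B) (x + B), g t := lintegral_mono_set hsub2

/-- the lower integral over an interval of scale `ℓ` as an average -/
private lemma lint_eq (hGR : Pool.Agent.Helper61.P3.StGR) {κ : ℤ → ℝ} (hκ : Gr κ) (ℓ : ℤ)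
    {f : ℝ → ℝ} {M : ℝ} (hf : Measurable f) (h0 : ∀ t, 0 ≤ f t) (hM : ∀ t, f t ≤ M) (t : ℝ) :
    ∫⁻ r in Ia κ ℓ t, ENNReal.ofReal (f r) = ENNReal.ofReal ((2 : ℝ) ^ ℓ * Ed κ ℓ f t) := by
  have h2 : (0 : ℝ) < (2 : ℝ) ^ ℓ := zpow_pos (by norm_num) ℓ
  obtain ⟨h3, h4, h5, -⟩ := hGR.1 κ hκ ℓ t
  have hint : IntegrableOn f (Ia κ ℓ t) volume := by
    refine Measure.integrableOn_of_bounded (M := M) ?_ hf.aestronglyMeasurable ?_
    · rw [h5]
      exact ENNReal.ofReal_ne_top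
    · refine Eventually.of_forall fun r => ?_
      rw [Real.norm_eq_abs, abs_of_nonneg (h0 r)]
      exact hM r
  rw [← ofReal_integral_eq_lintegral_ofReal hint (Eventually.of_forall h0)]
  congr 1
  unfold Ed
  rw [zpow_neg, ← mul_assoc, mul_inv_cancel₀ h2.ne', one_mul]

private lemma termA (hGR : Pool.Agent.Helper61.P3.StGR) {κ : ℤ → ℝ} (hκ : Gr κ) (ℓ : ℤ)
    {h β : ℝ → ℝ} {Γ' : ℝ} (hΓ' : 0 ≤ Γ') (hh : Measurable h) (hh2 : ∀ t, 0 ≤ h t ∧ h t ≤ 2)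
    (hβ : Measurable β) (hβ1 : ∀ t, 0 ≤ β t ∧ β t ≤ 1)
    (hE : ∀ t, Ed κ ℓ h t ≤ Γ' * Ed κ ℓ β t) (x A B : ℝ) (hAB : A + (2 : ℝ) ^ ℓ ≤ B) :
    ∫⁻ t in Icc (x - A) (x + A), ENNReal.ofReal (h t) ≤
      ENNReal.ofReal Γ' * ∫⁻ t in Icc (x - B) (x + B), ENNReal.ofReal (β t) := by
  have h2 : (0 : ℝ) < (2 : ℝ) ^ ℓ := zpow_pos (by norm_num) ℓ
  have h3 := whole κ ℓ (fun t => ENNReal.ofReal (h t))
    (fun t => ENNReal.ofReal Γ' * ENNReal.ofReal (β t)) (by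
      intro t
      rw [lintegral_const_mul' _ _ ENNReal.ofReal_ne_top]
      show ∫⁻ r in Ia κ ℓ t, ENNReal.ofReal (h r) ≤ _
      rw [lint_eq hGR hκ ℓ hh (fun t => (hh2 t).1) (fun t => (hh2 t).2) t,
        lint_eq hGR hκ ℓ hβ (fun t => (hβ1 t).1) (fun t => (hβ1 t).2) t,
        ← ENNReal.ofReal_mul hΓ']
      apply ENNReal.ofReal_le_ofReal
      have h4 := mul_le_mul_of_nonneg_left (hE t) h2.le
      linarith) x A B hAB
  rw [lintegral_const_mul' _ _ ENNReal.ofReal_ne_top] at h3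
  exact h3

private lemma termB (hGR : Pool.Agent.Helper61.P3.StGR) (hGA : Pool.Agent.Helper61.P3.StGA)
    (hGE : Pool.Agent.Helper61.P3.StGE) {κ : ℤ → ℝ} (hκ : Gr κ) (a ℓ : ℤ) (haℓ : a ≤ ℓ)
    {h β : ℝ → ℝ} {Γ' : ℝ} (hΓ' : 0 ≤ Γ') (hh : Measurable h) (hh2 : ∀ t, 0 ≤ h t ∧ h t ≤ 2)
    (hβ : Measurable β) (hβ1 : ∀ t, 0 ≤ β t ∧ β t ≤ 1)
    (hE : ∀ t, Ed κ ℓ (fun r => (Ed κ a h r - Ed κ ℓ h r) ^ 2) t ≤ 100 * en κ Γ' a ℓ β t)
    (x A B : ℝ) (hAB : A + (2 : ℝ) ^ ℓ ≤ B) :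
    ∫⁻ t in Icc (x - A) (x + A), ENNReal.ofReal ((Ed κ a h t - Ed κ ℓ h t) ^ 2) ≤
      ENNReal.ofReal 100 * ∫⁻ t in Icc (x - B) (x + B), ENNReal.ofReal (en κ Γ' a ℓ β t) := by
  have h2 : (0 : ℝ) < (2 : ℝ) ^ ℓ := zpow_pos (by norm_num) ℓ
  have habs : ∀ t, |h t| ≤ 2 := fun t => by
    rw [abs_of_nonneg (hh2 t).1]
    exact (hh2 t).2
  obtain ⟨ga1, ga2, -, ga4, -⟩ := hGA κ hκ h 2 a hh habs
  obtain ⟨gl1, gl2, -, gl4, -⟩ := hGA κ hκ h 2 ℓ hh habs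
  have ga5 := ga4 (fun t => (hh2 t).1)
  have gl5 := gl4 (fun t => (hh2 t).1)
  obtain ⟨-, -, ge3, -⟩ := hGE κ hκ β Γ' a ℓ hβ hβ1 hΓ' haℓ
  have hφm : Measurable (fun r => (Ed κ a h r - Ed κ ℓ h r) ^ 2) := (ga1.sub gl1).pow_const 2
  have hφ4 : ∀ r, (Ed κ a h r - Ed κ ℓ h r) ^ 2 ≤ 4 := by
    intro r
    have h5 := (abs_le.mp (ga2 r)).2
    have h6 := (abs_le.mp (gl2 r)).2
    have h7 := ga5 r
    have h8 := gl5 r
    have h9 : |Ed κ a h r - Ed κ ℓ h r| ≤ 2 := abs_le.mpr ⟨by linarith, by linarith⟩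
    have h10 := (sq_le_sq' (abs_le.mp h9).1 (abs_le.mp h9).2)
    linarith
  have h3 := whole κ ℓ (fun t => ENNReal.ofReal ((Ed κ a h t - Ed κ ℓ h t) ^ 2))
    (fun t => ENNReal.ofReal 100 * ENNReal.ofReal (en κ Γ' a ℓ β t)) (by
      intro t
      obtain ⟨-, hms, hvol, -⟩ := hGR.1 κ hκ ℓ t
      rw [lintegral_const_mul' _ _ ENNReal.ofReal_ne_top]
      have h11 := lint_eq hGR hκ ℓ hφm (fun r => sq_nonneg _) hφ4 t
      have h12 : ∫⁻ r in Ia κ ℓ t, ENNReal.ofReal (en κ Γ' a ℓ β r) =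
          ENNReal.ofReal (en κ Γ' a ℓ β t) * ENNReal.ofReal ((2 : ℝ) ^ ℓ) := by
        have h13 : ∫⁻ r in Ia κ ℓ t, ENNReal.ofReal (en κ Γ' a ℓ β r) =
            ∫⁻ _r in Ia κ ℓ t, ENNReal.ofReal (en κ Γ' a ℓ β t) := by
          refine setLIntegral_congr_fun hms ?_
          intro r hr
          show ENNReal.ofReal (en κ Γ' a ℓ β r) = _
          rw [ge3 t r hr]
        rw [h13, lintegral_const, Measure.restrict_apply_univ, hvol]
      show ∫⁻ r in Ia κ ℓ t, ENNReal.ofReal ((Ed κ a h r - Ed κ ℓ h r) ^ 2) ≤ _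
      rw [h11, h12, ← ENNReal.ofReal_mul' h2.le, ← ENNReal.ofReal_mul (by norm_num)]
      apply ENNReal.ofReal_le_ofReal
      have h14 := mul_le_mul_of_nonneg_left (hE t) h2.le
      linarith) x A B hAB
  rw [lintegral_const_mul' _ _ ENNReal.ofReal_ne_top] at h3
  exact h3

/-- the sum of the weights -/
private lemma wsum (v₀ v₁ : ℕ) : ∑ v ∈ Finset.Icc v₀ v₁, ENNReal.ofReal ((2 : ℝ) ^ v) ≤
    ENNReal.ofReal ((2 : ℝ) ^ (v₁ + 1)) := by
  rw [← ENNReal.ofReal_sum_of_nonneg (fun v _ => by positivity)]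
  apply ENNReal.ofReal_le_ofReal
  have h1 : ∑ v ∈ Finset.Icc v₀ v₁, (2 : ℝ) ^ v ≤ ∑ v ∈ Finset.range (v₁ + 1), (2 : ℝ) ^ v := by
    apply Finset.sum_le_sum_of_subset_of_nonneg
    · intro v hv
      rw [Finset.mem_Icc] at hv
      rw [Finset.mem_range]
      omega
    · intro v _ _
      positivity
  have h2 : ∑ v ∈ Finset.range (v₁ + 1), (2 : ℝ) ^ v = (2 : ℝ) ^ (v₁ + 1) - 1 := by
    rw [geom_sum_eq (by norm_num)]
    norm_num
  linarith

/-- the combination of the two terms of VAR for one grid -/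
private lemma comb (N i₀ v₀ v₁ : ℕ) (W : ℕ → ℕ → ℕ) (Cv L₂ Γ' δ : ℝ) (hCv : 0 < Cv)
    (hΓ' : 0 ≤ Γ') (hδ2 : (2 : ℝ) ^ (v₁ + 1) * δ ≤ 1) (A V : ℕ → ℝ≥0∞)
    (B Q : ℕ → ℕ → ℝ≥0∞)
    (h1 : ∀ j ∈ Finset.range N, ENNReal.ofReal L₂ * A j ≤ ENNReal.ofReal Γ' * V j)
    (h2 : ∀ j ∈ Finset.range N, ∀ v ∈ Finset.Icc v₀ v₁, i₀ ≤ W j v → ENNReal.ofReal L₂ * B j v ≤
      ENNReal.ofReal 100 * (Q j v + ENNReal.ofReal (2 * Γ' * δ) * V j)) :
    ENNReal.ofReal (Cv * (2 : ℝ) ^ v₀ * L₂) * (∑ j ∈ Finset.range N, A j) +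
      ENNReal.ofReal (Cv * L₂) * ∑ j ∈ Finset.range N, ∑ v ∈ Finset.Icc v₀ v₁,
        (if i₀ ≤ W j v then ENNReal.ofReal ((2 : ℝ) ^ v) * B j v else 0) ≤
    ENNReal.ofReal (201 * Cv * (2 : ℝ) ^ v₀ * Γ') * (∑ j ∈ Finset.range N, V j) +
      ENNReal.ofReal (100 * Cv) * ∑ j ∈ Finset.range N, ∑ v ∈ Finset.Icc v₀ v₁,
        (if i₀ ≤ W j v then ENNReal.ofReal ((2 : ℝ) ^ v) * Q j v else 0) := by
  have e1 : ENNReal.ofReal (Cv * (2 : ℝ) ^ v₀ * L₂) * (∑ j ∈ Finset.range N, A j) ≤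
      ENNReal.ofReal (Cv * (2 : ℝ) ^ v₀ * Γ') * (∑ j ∈ Finset.range N, V j) := by
    rw [ENNReal.ofReal_mul (by positivity), ENNReal.ofReal_mul (q := Γ') (by positivity), mul_assoc,
      mul_assoc]
    refine mul_le_mul' le_rfl ?_
    rw [Finset.mul_sum, Finset.mul_sum]
    exact Finset.sum_le_sum h1
  have e2 : ENNReal.ofReal (Cv * L₂) * ∑ j ∈ Finset.range N, ∑ v ∈ Finset.Icc v₀ v₁,
        (if i₀ ≤ W j v then ENNReal.ofReal ((2 : ℝ) ^ v) * B j v else 0) ≤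
      ENNReal.ofReal (200 * Cv * Γ') * (∑ j ∈ Finset.range N, V j) +
      ENNReal.ofReal (100 * Cv) * ∑ j ∈ Finset.range N, ∑ v ∈ Finset.Icc v₀ v₁,
        (if i₀ ≤ W j v then ENNReal.ofReal ((2 : ℝ) ^ v) * Q j v else 0) := by
    have e3 : ∀ j ∈ Finset.range N, ENNReal.ofReal L₂ * ∑ v ∈ Finset.Icc v₀ v₁,
        (if i₀ ≤ W j v then ENNReal.ofReal ((2 : ℝ) ^ v) * B j v else 0) ≤
        ENNReal.ofReal (200 * Γ') * V j + ENNReal.ofReal 100 * ∑ v ∈ Finset.Icc v₀ v₁,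
          (if i₀ ≤ W j v then ENNReal.ofReal ((2 : ℝ) ^ v) * Q j v else 0) := by
      intro j hj
      have e4 : ∀ v ∈ Finset.Icc v₀ v₁, ENNReal.ofReal L₂ *
          (if i₀ ≤ W j v then ENNReal.ofReal ((2 : ℝ) ^ v) * B j v else 0) ≤
          ENNReal.ofReal ((2 : ℝ) ^ v) * (ENNReal.ofReal (200 * Γ' * δ) * V j) +
          ENNReal.ofReal 100 * (if i₀ ≤ W j v then ENNReal.ofReal ((2 : ℝ) ^ v) * Q j v else 0) := by
        intro v hv
        split_ifs with hP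
        · have e5 := h2 j hj v hv hP
          calc ENNReal.ofReal L₂ * (ENNReal.ofReal ((2 : ℝ) ^ v) * B j v)
              = ENNReal.ofReal ((2 : ℝ) ^ v) * (ENNReal.ofReal L₂ * B j v) := by ring
            _ ≤ ENNReal.ofReal ((2 : ℝ) ^ v) * (ENNReal.ofReal 100 *
                (Q j v + ENNReal.ofReal (2 * Γ' * δ) * V j)) := by gcongr
            _ = ENNReal.ofReal ((2 : ℝ) ^ v) * ((ENNReal.ofReal 100 *
                ENNReal.ofReal (2 * Γ' * δ)) * V j) +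
                ENNReal.ofReal 100 * (ENNReal.ofReal ((2 : ℝ) ^ v) * Q j v) := by ring
            _ = _ := by
                rw [← ENNReal.ofReal_mul (by norm_num : (0 : ℝ) ≤ 100)]
                have e6 : (100 : ℝ) * (2 * Γ' * δ) = 200 * Γ' * δ := by ring
                rw [e6]
        · simp
      rw [Finset.mul_sum]
      refine (Finset.sum_le_sum e4).trans ?_
      rw [Finset.sum_add_distrib, ← Finset.sum_mul, ← Finset.mul_sum]
      refine add_le_add ?_ le_rfl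
      calc (∑ v ∈ Finset.Icc v₀ v₁, ENNReal.ofReal ((2 : ℝ) ^ v)) *
            (ENNReal.ofReal (200 * Γ' * δ) * V j)
          ≤ ENNReal.ofReal ((2 : ℝ) ^ (v₁ + 1)) * (ENNReal.ofReal (200 * Γ' * δ) * V j) := by
            gcongr
            exact wsum v₀ v₁
        _ = ENNReal.ofReal ((2 : ℝ) ^ (v₁ + 1) * (200 * Γ' * δ)) * V j := by
            rw [← mul_assoc, ← ENNReal.ofReal_mul (by positivity)]
        _ ≤ ENNReal.ofReal (200 * Γ') * V j := by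
            refine mul_le_mul' (ENNReal.ofReal_le_ofReal ?_) le_rfl
            have e7 : (2 : ℝ) ^ (v₁ + 1) * (200 * Γ' * δ) =
                200 * Γ' * ((2 : ℝ) ^ (v₁ + 1) * δ) := by ring
            rw [e7]
            have e8 : 0 ≤ 200 * Γ' := by positivity
            nlinarith
    calc ENNReal.ofReal (Cv * L₂) * ∑ j ∈ Finset.range N, ∑ v ∈ Finset.Icc v₀ v₁,
          (if i₀ ≤ W j v then ENNReal.ofReal ((2 : ℝ) ^ v) * B j v else 0)
        = ENNReal.ofReal Cv * ∑ j ∈ Finset.range N, (ENNReal.ofReal L₂ *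
            ∑ v ∈ Finset.Icc v₀ v₁,
            (if i₀ ≤ W j v then ENNReal.ofReal ((2 : ℝ) ^ v) * B j v else 0)) := by
          rw [← Finset.mul_sum, ← mul_assoc, ← ENNReal.ofReal_mul hCv.le]
      _ ≤ ENNReal.ofReal Cv * ∑ j ∈ Finset.range N, (ENNReal.ofReal (200 * Γ') * V j +
            ENNReal.ofReal 100 * ∑ v ∈ Finset.Icc v₀ v₁,
            (if i₀ ≤ W j v then ENNReal.ofReal ((2 : ℝ) ^ v) * Q j v else 0)) := by
          gcongr with j hj
          exact e3 j hj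
      _ = ENNReal.ofReal Cv * ENNReal.ofReal (200 * Γ') * (∑ j ∈ Finset.range N, V j) +
            ENNReal.ofReal Cv * ENNReal.ofReal 100 * ∑ j ∈ Finset.range N,
            ∑ v ∈ Finset.Icc v₀ v₁,
            (if i₀ ≤ W j v then ENNReal.ofReal ((2 : ℝ) ^ v) * Q j v else 0) := by
          rw [Finset.sum_add_distrib, ← Finset.mul_sum, ← Finset.mul_sum]
          ring
      _ = _ := by
          rw [← ENNReal.ofReal_mul hCv.le, ← ENNReal.ofReal_mul hCv.le]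
          have e9 : Cv * (200 * Γ') = 200 * Cv * Γ' := by ring
          have e10 : Cv * 100 = 100 * Cv := by ring
          rw [e9, e10]
  refine (add_le_add e1 e2).trans ?_
  rw [← add_assoc, ← add_mul, ← ENNReal.ofReal_add (by positivity) (by positivity)]
  gcongr
  have e11 : (1 : ℝ) ≤ (2 : ℝ) ^ v₀ := one_le_pow₀ (by norm_num)
  have e12 : 0 ≤ Cv * Γ' := by positivity
  nlinarith

/-- compact support of `lnf` -/
private lemma lnf_supp (hPT : Pool.Agent.Helper20.RG.StPT) (s : ℝ) (b : Pl → ℝ) (y₀ : ℝ)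
    (hb : HasCompactSupport b) : HasCompactSupport (lnf s b y₀) := by
  obtain ⟨h1, -, h3, -⟩ := hPT
  obtain ⟨M, hM⟩ := hb.isCompact.isBounded.exists_norm_le
  refine HasCompactSupport.intro (K := Icc (-(M + |s * y₀|)) (M + |s * y₀|)) isCompact_Icc ?_
  intro ρ hρ
  unfold lnf
  by_contra hne
  have h4 : pt y₀ (ρ + s * y₀) ∈ tsupport b := subset_tsupport b hne
  have h5 := hM _ h4
  have h6 := (h3 (pt y₀ (ρ + s * y₀))).2.1
  rw [(h1 _ _).2] at h6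
  apply hρ
  have h7 : |ρ + s * y₀| ≤ M := h6.trans h5
  have h8 := abs_le.mp h7
  have h9 := neg_abs_le (s * y₀)
  have h10 := le_abs_self (s * y₀)
  exact ⟨by linarith, by linarith⟩

/-- the bound by the two grids on the good set -/
private lemma good_sq (G a b m : ℝ) (g0 g1 p0 p1 : ℝ) (hm : 0 < m) (ha : a = g0 - p0)
    (hb : b = g1 - p1) (h1 : 16 / 100 * m ≤ G) (h2 : G ≤ g0 + g1) (h3 : p0 ≤ 2 / 100 * m)
    (h4 : p1 ≤ 2 / 100 * m) : G ^ 2 ≤ 4 * (a ^ 2 + b ^ 2) := by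
  have h5 : 3 / 4 * G ≤ a + b := by
    rw [ha, hb]
    linarith
  have h6 : 0 ≤ G := by linarith
  have h7 : (3 / 4 * G) ^ 2 ≤ (a + b) ^ 2 := by
    apply pow_le_pow_left₀ (by positivity) h5
  nlinarith [sq_nonneg (a - b)]

theorem hRDN (hPT : Pool.Agent.Helper20.RG.StPT) (hRID : Pool.Agent.Helper20.RG.StRID)
    (hRA : Pool.Agent.Helper20.RG.StRA) (hGR : Pool.Agent.Helper61.P3.StGR)
    (hGA : Pool.Agent.Helper61.P3.StGA) (hGE : Pool.Agent.Helper61.P3.StGE)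
    (hSTP : Pool.Agent.Helper61.P3.StSTP) (hCVR : Pool.Agent.Helper61.P3.StCVR)
    (hVAR : Pool.Agent.Helper61.P3.StVAR) (hRF1 : Pool.Agent.Helper61.P3.StRF1)
    (hRF2 : Pool.Agent.Helper61.P3.StRF2) (hPGB : Pool.Agent.Helper61.P3.StPGB)
    (hENC : Pool.Agent.Helper61.P3.StENC) : Pool.Agent.Helper61.P3.StRDN := by
  obtain ⟨Cv, hCv, hV⟩ := hVAR
  refine ⟨200000000000 * Cv, by positivity, ?_⟩
  intro N s o b Et Er z p ℓ k L₂ D m nst δ i₀ v₀ v₁ W R hb hEt hEr hL₂ hi₀ hkp hpℓ h100 hNℓ hNk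
    hexo hv01 hcnt hW0 hδ hδ2 hmn hm1 hD hDm hR hx
  rcases R.eq_empty_or_nonempty with hRe | ⟨x₀, hx₀⟩
  · rw [hRe, measure_empty]
    exact bot_le
  -- sizes
  have hmN : m ≤ N := by
    refine (hx x₀ hx₀).1.trans ?_
    have h1 : {j : ℕ | j < N ∧ x₀ ∈ Et j}.ncard ≤ {j : ℕ | j < N}.ncard :=
      Set.ncard_le_ncard (fun j hj => hj.1) (Set.finite_lt_nat N)
    have h2 : {j : ℕ | j < N}.ncard = N := by
      have : {j : ℕ | j < N} = ((Finset.range N : Finset ℕ) : Set ℕ) := by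
        ext j
        simp
      rw [this, Set.ncard_coe_finset, Finset.card_range]
    rw [h2] at h1
    exact_mod_cast h1
  set L : ℝ := (2 : ℝ) ^ ℓ with hLdef
  set α : ℝ := (2 : ℝ) ^ (-(i₀ : ℤ)) with hαdef
  have hα2 : (2 : ℝ) ^ (-(2 * (i₀ : ℤ))) = α ^ 2 := by
    rw [hαdef, ← zpow_natCast, ← zpow_mul]
    congr 1
    push_cast
    ring
  have hα : 0 < α := zpow_pos (by norm_num) _
  have hα1 : α ≤ 1 := by
    rw [hαdef]
    exact zpow_le_one_of_nonpos₀ (by norm_num) (by omega)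
  have h2p : (0 : ℝ) < (2 : ℝ) ^ p := zpow_pos (by norm_num) p
  have h2k : (0 : ℝ) < (2 : ℝ) ^ k := zpow_pos (by norm_num) k
  have hLpos : 0 < L := zpow_pos (by norm_num) ℓ
  have hN1000 : (1000 : ℝ) ≤ N := hm1.trans hmN
  have hα21 : α ^ 2 ≤ 1 := by nlinarith
  have h1000 : 1000 * L ≤ α ^ 2 * L₂ := by
    rw [hα2] at hNℓ
    nlinarith
  have hα2L : α ^ 2 * L₂ ≤ L₂ := by nlinarith
  have hLL₂ : L ≤ L₂ := by linarith
  have hkℓ : k ≤ ℓ := by omega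
  have hkL : (2 : ℝ) ^ k ≤ L := zpow_le_zpow_right₀ (by norm_num) hkℓ
  have hnst : 0 ≤ nst := by
    have h1 : 0 < N := by
      have : (0 : ℝ) < N := by linarith
      exact_mod_cast this
    exact (Nat.cast_nonneg _).trans (hexo 0 h1)
  have hm0 : 0 < m := by linarith
  set Γ : ℝ := m / (200 * (20 * D)) with hΓ
  set Γ' : ℝ := m / (125 * D) with hΓ'
  have hΓΓ : Γ' = 32 * Γ := by
    rw [hΓ, hΓ']
    field_simp
    norm_num
  have hΓ1 : 1 ≤ Γ := by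
    rw [hΓ, le_div_iff₀ (by positivity)]
    linarith
  have hΓ0 : 0 < Γ := by linarith
  have hΓ'1 : 1 ≤ Γ' := by rw [hΓΓ]; linarith
  have hΓ'0 : 0 < Γ' := by linarith
  -- the open sets
  set Qo : Set Pl := interior (Sq z (5 * L₂)) with hQo
  set F : ℕ → Set ℝ := fun j => pr (s j) '' (Et j ∩ Qo) with hF
  have hFo : ∀ j < N, IsOpen (F j) := by
    intro j hj
    exact pr_isOpenMap hPT (s j) _ ((hEt j hj).1.inter isOpen_interior)
  have hex : ∀ j : ℕ, ∃ I : Set (ℤ × ℤ), j < N →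
      (∀ a ∈ I, a.1 ≤ p ∧ ENNReal.ofReal ((2 : ℝ) ^ a.1 / Γ) ≤ volume (F j ∩ dI a) ∧
        (a.1 < p → volume (F j ∩ dI a) ≤ ENNReal.ofReal (2 * (2 : ℝ) ^ a.1 / Γ))) ∧
      (∀ a ∈ I, ∀ b ∈ I, a ≠ b → Disjoint (dI a) (dI b)) ∧ F j ⊆ ⋃ a ∈ I, dI a ∧
      ∀ A B : ℝ, A ≤ B → volume (Om I ∩ Icc A B) ≤
        ENNReal.ofReal (5 * Γ) * volume (F j ∩ Icc (A - 3 * (2 : ℝ) ^ p) (B + 3 * (2 : ℝ) ^ p)) := by
    intro j
    by_cases hj : j < N
    · obtain ⟨I, hI⟩ := hRA (F j) Γ p (hFo j hj) hΓ1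
      exact ⟨I, fun _ => hI⟩
    · exact ⟨∅, fun h => absurd h hj⟩
  choose I hI using hex
  have hsub12 : ∀ y : Pl, y ∈ Sq z (5 * L₂) → y ∈ Sq z (12 * L₂) := by
    rintro y ⟨h1, h2⟩
    exact ⟨by linarith, by linarith⟩
  have hridge : ∀ j < N, ∀ y ∈ Sq z (5 * L₂), pr (s j) y ∈ F j → y ∈ Er j := by
    intro j hj y hy hyF
    obtain ⟨y₀, ⟨h1, h2⟩, h3⟩ := hyF
    have h4 : y₀ ∈ Sq z (12 * L₂) := hsub12 _ (interior_subset h2)
    have h5 := (hEr j hj y₀ h4 y₀ h4 rfl).1 h1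
    exact (hEr j hj y₀ h4 y (hsub12 _ hy) h3).2.1 (by linarith)
  have hDat : RDat N s Er F I z p L L₂ α (20 * D) m nst Γ :=
    { slope := fun j hj => (hb j hj).1
      opn := hFo
      mes := fun j hj => (hEt j hj).2
      ridge := hridge
      i1 := fun j hj => (hI j hj).1
      i2 := fun j hj => (hI j hj).2.1
      i3 := fun j hj => (hI j hj).2.2.1
      i4 := fun j hj => (hI j hj).2.2.2
      al := ⟨hα, hα1⟩
      sc3 := h100
      scN := by rw [← hα2]; exact hNℓ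
      exo := hexo
      mn := hmn
      m1 := ⟨hm1, hmN⟩
      gam := ⟨rfl, hΓ1, by positivity⟩ }
  -- the functions on the line
  set β : ℕ → ℝ → ℝ := fun j => lnf (s j) (b j) (z 0) with hβ
  have hpt := hPT.1
  have hβc : ∀ j < N, Continuous (β j) := by
    intro j hj
    have h1 : Continuous fun ρ : ℝ => pt (z 0) (ρ + s j * z 0) := by
      have h2 := hPT.2.2.2.2.1
      exact h2.comp (continuous_const.prodMk (continuous_id.add continuous_const))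
    exact (hb j hj).2.1.comp h1
  have hβs : ∀ j < N, HasCompactSupport (β j) := fun j hj =>
    lnf_supp hPT (s j) (b j) (z 0) (hb j hj).2.2.1
  have hβ1 : ∀ j < N, ∀ t, 0 ≤ β j t ∧ β j t ≤ 1 := fun j hj t => (hb j hj).2.2.2 _
  -- points over z 0
  have hP : ∀ j < N, ∀ y : Pl, |y 0 - z 0| ≤ 6 * L₂ → |y 1 - z 1| ≤ 6 * L₂ →
      pt (z 0) (pr (s j) y + s j * z 0) ∈ Sq z (12 * L₂) ∧
      pr (s j) (pt (z 0) (pr (s j) y + s j * z 0)) = pr (s j) y := by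
    intro j hj y hy0 hy1
    refine ⟨⟨?_, ?_⟩, ?_⟩
    · rw [(hpt _ _).1, sub_self, abs_zero]
      positivity
    · rw [(hpt _ _).2]
      have h1 : pr (s j) y + s j * z 0 - z 1 = (y 1 - z 1) - s j * (y 0 - z 0) := by
        unfold pr
        ring
      rw [h1]
      have h2 := abs_sub (y 1 - z 1) (s j * (y 0 - z 0))
      have h3 : |s j * (y 0 - z 0)| ≤ 6 * L₂ := by
        rw [abs_mul]
        have h4 := (hb j hj).1
        have h5 := abs_nonneg (y 0 - z 0)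
        have h6 := abs_nonneg (s j)
        nlinarith
      linarith
    · show (pt (z 0) (pr (s j) y + s j * z 0)) 1 - s j * (pt (z 0) (pr (s j) y + s j * z 0)) 0 = _
      rw [(hpt _ _).1, (hpt _ _).2]
      ring
  have hFβ : ∀ j < N, ∀ t ∈ F j, 1 / 2 < β j t := by
    rintro j hj t ⟨y₀, ⟨h1, h2⟩, rfl⟩
    have h3 := interior_subset h2
    obtain ⟨h4, h5⟩ := hP j hj y₀ (by linarith [h3.1]) (by linarith [h3.2])
    exact (hEr j hj y₀ (hsub12 _ h3) _ h4 h5.symm).1 h1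
  -- the stopped averages
  have hex2 : ∀ i j : ℕ, ∃ h : ℝ → ℝ, j < N →
      Measurable h ∧ (∀ t, 0 ≤ h t ∧ h t ≤ 2) ∧ (∃ K : ℝ, ∀ t, K < |t| → h t = 0) ∧
      (∀ a : ℤ, a ≤ p + 4 → ∀ t, 1 ≤ Γ' * Ed (gk i (o j)) a (β j) t → 1 ≤ h t) ∧
      (∀ ℓ : ℤ, p + 4 ≤ ℓ → ∀ t, Ed (gk i (o j)) ℓ h t ≤ Γ' * Ed (gk i (o j)) ℓ (β j) t) ∧
      ∀ a ℓ : ℤ, a ≤ p + 4 → p + 4 ≤ ℓ → ∀ t,
        Ed (gk i (o j)) ℓ (fun r => (Ed (gk i (o j)) a h r - Ed (gk i (o j)) ℓ h r) ^ 2) t ≤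
          100 * en (gk i (o j)) Γ' a ℓ (β j) t := by
    intro i j
    by_cases hj : j < N
    · obtain ⟨h, hh⟩ := hSTP (gk i (o j)) (hGR.2.1 i (o j)) (β j) Γ' (p + 4) (hβc j hj) (hβs j hj)
        (hβ1 j hj) hΓ'1
      exact ⟨h, fun _ => hh⟩
    · exact ⟨0, fun h => absurd h hj⟩
  choose h hh using hex2
  have hcov : ∀ y : Pl, Gs N s I y ≤ GG N s (h 0) y + GG N s (h 1) y := by
    intro y
    unfold Gs GG
    rw [← Finset.sum_add_distrib]
    refine Finset.sum_le_sum fun j hj => ?_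
    rw [Finset.mem_range] at hj
    refine hCVR (β j) (F j) Γ (o j) p (I j) (fun i => h i j) (hβc j hj) (hβ1 j hj) (hFo j hj)
      (hFβ j hj) hΓ1 (fun a ha => ⟨((hI j hj).1 a ha).1, ((hI j hj).1 a ha).2.1⟩) ?_ ?_ _
    · intro i _ t
      exact ((hh i j hj).2.1 t).1
    · intro i _ a ha t ht
      exact (hh i j hj).2.2.2.1 a ha t (by rw [hΓΓ]; exact ht)
  -- the good set
  set κ : ℕ → ℕ → ℤ → ℝ := fun i j => gk i (o j) with hκ
  have hPGm : ∀ i : ℕ, Measurable (PG N s (κ i) ℓ (h i)) := by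
    intro i
    unfold PG
    refine Finset.measurable_sum _ fun j hj => ?_
    rw [Finset.mem_range] at hj
    obtain ⟨h1, h2, -⟩ := hh i j hj
    have h3 := (hGA (κ i j) (hGR.2.1 i (o j)) (h i j) 2 ℓ h1 (fun t => by
      rw [abs_of_nonneg (h2 t).1]; exact (h2 t).2)).1
    exact h3.comp (pr_continuous _).measurable
  have hGGm : ∀ i : ℕ, Measurable (GG N s (h i)) := by
    intro i
    unfold GG
    refine Finset.measurable_sum _ fun j hj => ?_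
    rw [Finset.mem_range] at hj
    exact (hh i j hj).1.comp (pr_continuous _).measurable
  set H : Set Pl := Sq z L₂ ∩ {y | 16 / 100 * m ≤ Gs N s I y ∧ PG N s (κ 0) ℓ (h 0) y ≤ 2 / 100 * m ∧
    PG N s (κ 1) ℓ (h 1) y ≤ 2 / 100 * m} with hH
  have hHm : MeasurableSet H := by
    refine (meas_Sq z L₂).inter ?_
    refine MeasurableSet.inter ?_ (MeasurableSet.inter ?_ ?_)
    · exact measurableSet_le measurable_const (meas_Gs N s I)
    · exact measurableSet_le (hPGm 0) measurable_const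
    · exact measurableSet_le (hPGm 1) measurable_const
  -- R is in the set of RF1
  have hRQ : ∀ x ∈ R, x ∈ Qo := by
    intro x hxR
    have h1 := hR hxR
    rw [hQo, mem_interior]
    refine ⟨{y : Pl | |y 0 - z 0| < 5 * L₂} ∩ {y : Pl | |y 1 - z 1| < 5 * L₂}, ?_, ?_, ?_⟩
    · rintro y ⟨h2, h3⟩
      exact ⟨le_of_lt h2, le_of_lt h3⟩
    · exact (isOpen_lt (by fun_prop) continuous_const).inter
        (isOpen_lt (by fun_prop) continuous_const)
    · have h2 := h1.1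
      have h3 := h1.2
      exact ⟨lt_of_le_of_lt h2 (by linarith), lt_of_le_of_lt h3 (by linarith)⟩
  have hPG : ∀ i : ℕ, ∀ x ∈ R, ∀ y ∈ Sq x (L / 50), PG N s (κ i) ℓ (h i) y ≤ 2 / 100 * m := by
    intro i x hxR y hy
    have hxz := hR hxR
    refine hPGB N s (κ i) β (h i) Er x x y ℓ L D m Γ' ?_ ?_ ?_ hD hm0 hΓ' le_rfl ?_ hy
      (hx x hxR).2.2
    · intro j hj
      exact ⟨(hb j hj).1, hGR.2.1 i (o j), hβc j hj, hβ1 j hj, (hh i j hj).1, (hh i j hj).2.1,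
        (hEt j hj).2⟩
    · intro j hj t
      exact (hh i j hj).2.2.2.2.1 ℓ hpℓ t
    · intro j hj y' hy' hpos
      have h1 : |y' 0 - z 0| ≤ 6 * L₂ := by
        have h2 := abs_sub_le (y' 0) (x 0) (z 0)
        have h3 := hy'.1
        have h4 := hxz.1
        linarith
      have h1' : |y' 1 - z 1| ≤ 6 * L₂ := by
        have h2 := abs_sub_le (y' 1) (x 1) (z 1)
        have h3 := hy'.2
        have h4 := hxz.2
        linarith
      obtain ⟨h4, h5⟩ := hP j hj y' h1 h1'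
      exact (hEr j hj _ h4 y' ⟨by linarith, by linarith⟩ h5).2.1 hpos
    · exact ⟨by rw [sub_self, abs_zero]; positivity, by rw [sub_self, abs_zero]; positivity⟩
  have hRF := hRF2 N s Er F I z p L L₂ α (20 * D) m nst Γ hDat R H hHm (by
    intro x hxR
    obtain ⟨h1, h2, -⟩ := hx x hxR
    have h3 := hRF1 N s Er F I z p L L₂ α (20 * D) m nst Γ hDat x (hR hxR) (by
      refine h1.trans ?_
      have h4 : {j : ℕ | j < N ∧ x ∈ Et j}.ncard ≤ {j : ℕ | j < N ∧ pr (s j) x ∈ F j}.ncard := by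
        refine Set.ncard_le_ncard ?_ ((Set.finite_lt_nat N).subset fun j hj => hj.1)
        rintro j ⟨hj, hxj⟩
        exact ⟨hj, x, ⟨hxj, hRQ x hxR⟩, rfl⟩
      exact_mod_cast h4) (by
      unfold Dens at h2 ⊢
      refine h2.trans (ENNReal.ofReal_le_ofReal ?_)
      apply mul_le_mul_of_nonneg_right (by linarith) (by positivity))
    refine h3.trans ?_
    have h5 : ∀ U V : Set (ℕ × ℕ), V.Finite → U ⊆ V → (U.ncard : ℝ) ≤ V.ncard := by
      intro U V hVf hUV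
      exact_mod_cast Set.ncard_le_ncard hUV hVf
    refine h5 _ _ ?_ ?_
    · refine (((Set.finite_lt_nat N).prod (Set.finite_lt_nat N))).subset ?_
      rintro q ⟨hq1, hq2, -⟩
      exact ⟨hq1, hq2⟩
    · rintro q ⟨hq1, hq2, hq3, a, ha, c, hc, hx1, hx2, hap, hcp, hsub⟩
      refine ⟨hq1, hq2, hq3, a, ha, c, hc, hx1, hx2, hap, hcp, hsub.trans ?_⟩
      rintro y ⟨hy1, hy2, hy3⟩
      exact ⟨hy1, hy3, hPG 0 x hxR y hy2, hPG 1 x hxR y hy2⟩)
  -- the integral over the good set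
  set J : ℕ → ℝ≥0∞ := fun i => ∫⁻ y : Pl,
    ENNReal.ofReal (cut z L₂ y * (GG N s (h i) y - PG N s (κ i) ℓ (h i) y) ^ 2) with hJ
  have hcutm : Measurable (cut z L₂) := by
    have h1 : Continuous (cut z L₂) := by
      unfold cut c1
      fun_prop
    exact h1.measurable
  have hI1 : ∫⁻ y in H, ENNReal.ofReal (Gs N s I y) ^ 2 ≤ ENNReal.ofReal 4 * (J 0 + J 1) := by
    calc ∫⁻ y in H, ENNReal.ofReal (Gs N s I y) ^ 2
        ≤ ∫⁻ y in H, ENNReal.ofReal 4 *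
            (ENNReal.ofReal (cut z L₂ y * (GG N s (h 0) y - PG N s (κ 0) ℓ (h 0) y) ^ 2) +
            ENNReal.ofReal (cut z L₂ y * (GG N s (h 1) y - PG N s (κ 1) ℓ (h 1) y) ^ 2)) := by
          refine setLIntegral_mono' hHm ?_
          rintro y ⟨h1, h2, h3, h4⟩
          rw [cut_eq_one z L₂ hL₂ y h1, one_mul, one_mul, ← ENNReal.ofReal_pow (by linarith),
            ← ENNReal.ofReal_add (sq_nonneg _) (sq_nonneg _), ← ENNReal.ofReal_mul (by norm_num)]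
          apply ENNReal.ofReal_le_ofReal
          exact good_sq _ _ _ m _ _ _ _ hm0 rfl rfl h2 (hcov y) h3 h4
      _ ≤ ∫⁻ y : Pl, ENNReal.ofReal 4 *
            (ENNReal.ofReal (cut z L₂ y * (GG N s (h 0) y - PG N s (κ 0) ℓ (h 0) y) ^ 2) +
            ENNReal.ofReal (cut z L₂ y * (GG N s (h 1) y - PG N s (κ 1) ℓ (h 1) y) ^ 2)) :=
          setLIntegral_le_lintegral _ _
      _ = _ := by
          rw [lintegral_const_mul' _ _ ENNReal.ofReal_ne_top, lintegral_add_left]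
          exact ENNReal.measurable_ofReal.comp (hcutm.mul (((hGGm 0).sub (hPGm 0)).pow_const 2))
  -- the variance for one grid
  set V : ℕ → ℝ≥0∞ := fun j => volume (Er j ∩ Sq z (12 * L₂)) with hVdef
  set Q : ℕ → ℕ → ℕ → ℝ≥0∞ := fun i j v => LE (s j) (gk i (o j)) Γ' (k - (W j v : ℤ)) ℓ (b j) z L₂
    with hQ
  have hJ1 : ∀ i : ℕ, J i ≤ ENNReal.ofReal (201 * Cv * (2 : ℝ) ^ v₀ * Γ') *
      (∑ j ∈ Finset.range N, V j) + ENNReal.ofReal (100 * Cv) * ∑ j ∈ Finset.range N,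
        ∑ v ∈ Finset.Icc v₀ v₁, (if i₀ ≤ W j v then ENNReal.ofReal ((2 : ℝ) ^ v) * Q i j v else 0) := by
    intro i
    have h1 := hV N s (κ i) (h i) z k ℓ L₂ i₀ v₀ v₁ W (by
      intro j hj
      exact ⟨(hb j hj).1, hGR.2.1 i (o j), (hh i j hj).1, (hh i j hj).2.1, (hh i j hj).2.2.1⟩)
      hL₂ hi₀ hkℓ hNℓ hLL₂ hNk (by rw [hα2]; show L ≤ _; linarith) (hkL.trans hLL₂) hv01 hcnt hW0
    refine h1.trans ?_
    have hENCj : ∀ j < N, ∀ v : ℕ, _ := fun j hj v =>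
      hENC (s j) (gk i (o j)) (b j) (Er j) z (k - (W j v : ℤ)) ℓ L₂ Γ' δ (hb j hj).1
        (hGR.2.1 i (o j)) (hb j hj).2.1 (hb j hj).2.2.2 (hEt j hj).2 hL₂ hΓ'0.le hδ (by omega) hLL₂
        (fun y hy y' hy' hyy => ((hEr j hj y hy y' hy' hyy)).2)
    refine comb N i₀ v₀ v₁ W Cv L₂ Γ' δ hCv hΓ'0.le hδ2
      (fun j => ∫⁻ t in Icc (pr (s j) z - 6 * L₂) (pr (s j) z + 6 * L₂), ENNReal.ofReal (h i j t)) V
      (fun j v => ∫⁻ t in Icc (pr (s j) z - 5 * L₂) (pr (s j) z + 5 * L₂),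
          ENNReal.ofReal ((Ed (κ i j) (k - (W j v : ℤ)) (h i j) t - Ed (κ i j) ℓ (h i j) t) ^ 2))
      (Q i) ?_ ?_
    · intro j hj
      rw [Finset.mem_range] at hj
      have h2 := termA hGR (hGR.2.1 i (o j)) ℓ hΓ'0.le (hh i j hj).1 (hh i j hj).2.1
        (hβc j hj).measurable (hβ1 j hj) ((hh i j hj).2.2.2.2.1 ℓ hpℓ) (pr (s j) z) (6 * L₂)
        (7 * L₂) (by show 6 * L₂ + L ≤ _; linarith)
      have h3 := (hENCj j hj 0).2
      calc ENNReal.ofReal L₂ *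
            ∫⁻ t in Icc (pr (s j) z - 6 * L₂) (pr (s j) z + 6 * L₂), ENNReal.ofReal (h i j t)
          ≤ ENNReal.ofReal L₂ * (ENNReal.ofReal Γ' *
            ∫⁻ t in Icc (pr (s j) z - 7 * L₂) (pr (s j) z + 7 * L₂), ENNReal.ofReal (β j t)) := by
            gcongr
        _ = ENNReal.ofReal Γ' * (ENNReal.ofReal L₂ *
            ∫⁻ t in Icc (pr (s j) z - 7 * L₂) (pr (s j) z + 7 * L₂), ENNReal.ofReal (β j t)) := by
            ring
        _ ≤ ENNReal.ofReal Γ' * V j := by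
            gcongr
    · intro j hj v _ _
      rw [Finset.mem_range] at hj
      have h2 := termB hGR hGA hGE (hGR.2.1 i (o j)) (k - (W j v : ℤ)) ℓ (by omega) hΓ'0.le
        (hh i j hj).1 (hh i j hj).2.1 (hβc j hj).measurable (hβ1 j hj)
        ((hh i j hj).2.2.2.2.2 (k - (W j v : ℤ)) ℓ (by omega) hpℓ) (pr (s j) z) (5 * L₂)
        (6 * L₂) (by show 5 * L₂ + L ≤ _; linarith)
      have h3 := (hENCj j hj v).1
      calc ENNReal.ofReal L₂ *
            ∫⁻ t in Icc (pr (s j) z - 5 * L₂) (pr (s j) z + 5 * L₂),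
              ENNReal.ofReal ((Ed (κ i j) (k - (W j v : ℤ)) (h i j) t - Ed (κ i j) ℓ (h i j) t) ^ 2)
          ≤ ENNReal.ofReal L₂ * (ENNReal.ofReal 100 *
            ∫⁻ t in Icc (pr (s j) z - 6 * L₂) (pr (s j) z + 6 * L₂),
              ENNReal.ofReal (en (gk i (o j)) Γ' (k - (W j v : ℤ)) ℓ (β j) t)) := by
            gcongr
        _ = ENNReal.ofReal 100 * (ENNReal.ofReal L₂ *
            ∫⁻ t in Icc (pr (s j) z - 6 * L₂) (pr (s j) z + 6 * L₂),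
              ENNReal.ofReal (en (gk i (o j)) Γ' (k - (W j v : ℤ)) ℓ (β j) t)) := by
            ring
        _ ≤ ENNReal.ofReal 100 * (Q i j v + ENNReal.ofReal (2 * Γ' * δ) * V j) := by
            gcongr
  -- conclusion
  have hsum : J 0 + J 1 ≤ ENNReal.ofReal (402 * Cv * (2 : ℝ) ^ v₀ * Γ') *
      (∑ j ∈ Finset.range N, V j) + ENNReal.ofReal (100 * Cv) * ∑ j ∈ Finset.range N,
        ∑ v ∈ Finset.Icc v₀ v₁, (if i₀ ≤ W j v then ENNReal.ofReal ((2 : ℝ) ^ v) *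
          ∑ i ∈ Finset.range 2, Q i j v else 0) := by
    refine (add_le_add (hJ1 0) (hJ1 1)).trans (le_of_eq ?_)
    have h1 : ∑ j ∈ Finset.range N, ∑ v ∈ Finset.Icc v₀ v₁, (if i₀ ≤ W j v then
          ENNReal.ofReal ((2 : ℝ) ^ v) * ∑ i ∈ Finset.range 2, Q i j v else 0) =
        ∑ j ∈ Finset.range N, ∑ v ∈ Finset.Icc v₀ v₁, (if i₀ ≤ W j v then
          ENNReal.ofReal ((2 : ℝ) ^ v) * Q 0 j v else 0) +
        ∑ j ∈ Finset.range N, ∑ v ∈ Finset.Icc v₀ v₁, (if i₀ ≤ W j v then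
          ENNReal.ofReal ((2 : ℝ) ^ v) * Q 1 j v else 0) := by
      rw [← Finset.sum_add_distrib]
      refine Finset.sum_congr rfl fun j _ => ?_
      rw [← Finset.sum_add_distrib]
      refine Finset.sum_congr rfl fun v _ => ?_
      split_ifs
      · rw [Finset.sum_range_succ, Finset.sum_range_succ, Finset.sum_range_zero, zero_add, mul_add]
      · rw [add_zero]
    have h2 : ENNReal.ofReal (402 * Cv * (2 : ℝ) ^ v₀ * Γ') =
        ENNReal.ofReal (201 * Cv * (2 : ℝ) ^ v₀ * Γ') +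
        ENNReal.ofReal (201 * Cv * (2 : ℝ) ^ v₀ * Γ') := by
      rw [← ENNReal.ofReal_add (by positivity) (by positivity)]
      congr 1
      ring
    rw [h1, h2]
    ring
  calc volume R ≤ ENNReal.ofReal (23 / (m ^ 2 * Γ ^ 2)) *
        ∫⁻ y in H, ENNReal.ofReal (Gs N s I y) ^ 2 := hRF
    _ ≤ ENNReal.ofReal (23 / (m ^ 2 * Γ ^ 2)) * (ENNReal.ofReal 4 *
        (ENNReal.ofReal (402 * Cv * (2 : ℝ) ^ v₀ * Γ') * (∑ j ∈ Finset.range N, V j) +
        ENNReal.ofReal (100 * Cv) * ∑ j ∈ Finset.range N,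
        ∑ v ∈ Finset.Icc v₀ v₁, (if i₀ ≤ W j v then ENNReal.ofReal ((2 : ℝ) ^ v) *
          ∑ i ∈ Finset.range 2, Q i j v else 0))) := by
        refine mul_le_mul' le_rfl (hI1.trans (mul_le_mul' le_rfl hsum))
    _ = ENNReal.ofReal (23 / (m ^ 2 * Γ ^ 2) * 4 * (402 * Cv * (2 : ℝ) ^ v₀ * Γ')) *
          (∑ j ∈ Finset.range N, V j) +
        ENNReal.ofReal (23 / (m ^ 2 * Γ ^ 2) * 4 * (100 * Cv)) * ∑ j ∈ Finset.range N,
        ∑ v ∈ Finset.Icc v₀ v₁, (if i₀ ≤ W j v then ENNReal.ofReal ((2 : ℝ) ^ v) *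
          ∑ i ∈ Finset.range 2, Q i j v else 0) := by
        rw [ENNReal.ofReal_mul (p := 23 / (m ^ 2 * Γ ^ 2) * 4) (by positivity),
          ENNReal.ofReal_mul (p := 23 / (m ^ 2 * Γ ^ 2) * 4) (by positivity),
          ENNReal.ofReal_mul (p := 23 / (m ^ 2 * Γ ^ 2)) (by positivity)]
        ring
    _ ≤ _ := by
        refine add_le_add (mul_le_mul' (ENNReal.ofReal_le_ofReal ?_) le_rfl)
          (mul_le_mul' (ENNReal.ofReal_le_ofReal ?_) le_rfl)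
        · have h1 : 23 / (m ^ 2 * Γ ^ 2) * 4 * (402 * Cv * (2 : ℝ) ^ v₀ * Γ') =
              4733952000 * (Cv * D / m ^ 3 * (2 : ℝ) ^ v₀) := by
            rw [hΓ, hΓ']
            field_simp
            norm_num
          rw [h1]
          have h2 : 0 ≤ Cv * D / m ^ 3 * (2 : ℝ) ^ v₀ := by positivity
          have h3 : 200000000000 * Cv * D / m ^ 3 * (2 : ℝ) ^ v₀ =
            200000000000 * (Cv * D / m ^ 3 * (2 : ℝ) ^ v₀) := by ring
          rw [h3]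
          nlinarith
        · have h1 : 23 / (m ^ 2 * Γ ^ 2) * 4 * (100 * Cv) =
              147200000000 * (Cv * D ^ 2 / m ^ 4) := by
            rw [hΓ]
            field_simp
            norm_num
          rw [h1]
          have h2 : 0 ≤ Cv * D ^ 2 / m ^ 4 := by positivity
          have h3 : 200000000000 * Cv * D ^ 2 / m ^ 4 =
            200000000000 * (Cv * D ^ 2 / m ^ 4) := by ring
          rw [h3]
          nlinarith

end Pool.Agent.Helper17.P3
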