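import Mathlib
import Pool.Agent.Helper61.P3.St3

/-!
# P3 module WIM: many bad windows
-/

set_option autoImplicit false

open MeasureTheory Set Filter Topology
open scoped ENNReal RealInnerProductSpace

namespace Pool.Agent.Helper17.P3

open Pool.Agent.Helper61.P3 Pool.Agent.Helper20.RG Pool.Agent.Helper20.EQ
open Pool.Agent.Helper68.LM (Pl BB Bd Av HL ft fm DQ)
open Pool.Agent.Helper68.EP (elt GapP)

theorem hWIM (hWB : Pool.Agent.Helper20.RG.StWB) (hWAG : Pool.Agent.Helper61.P3.StWAG) :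
    Pool.Agent.Helper61.P3.StWIM := by
  intro n N e a r S D₀ D₁ he hD₀ hD₁ hS ha hr
  set G : ℕ → Set Pl := fun i => {x | ∑ j ∈ Finset.range N,
    volume (S i j ∩ Sq x (4 * (2 : ℝ) ^ (a i))) ≤ ENNReal.ofReal (D₀ * (4 : ℝ) ^ (a i))} with hG
  set U : ℕ → ℕ → Set Pl := fun i c =>
    ⋃ x ∈ {x | x ∈ G i ∧ ¬ Dens (S i) N x (r i c) D₁}, DQ (a (i + 1)) x with hU
  set V : ℕ → Set Pl := fun i => U i 0 ∪ (U i 1 ∪ U i 2) with hV
  have hWBi : ∀ i < n, ∀ c < 3,
      (volume (U i c) ≤ ENNReal.ofReal (16 / D₁) * ∑ j ∈ Finset.range N, volume (S i j)) ∧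
      ∀ x₀ : Pl, volume (U i c ∩ DQ (a i) x₀) ≤
        ENNReal.ofReal (16 * D₀ / D₁) * volume (DQ (a i) x₀) := fun i hi c hc =>
    hWB N (a i) (a (i + 1)) (r i c) D₁ D₀ (S i) (G i) (ha i hi) (hr i hi c hc).1
      (hr i hi c hc).2 hD₁ hD₀ (hS i hi) (fun x hx => hx)
  have h3 : ∀ (t : ℝ) (X : ℝ≥0∞), 0 ≤ t → ENNReal.ofReal t * X + (ENNReal.ofReal t * X +
      ENNReal.ofReal t * X) = ENNReal.ofReal (3 * t) * X := by
    intro t X ht
    rw [← add_mul, ← add_mul, ← ENNReal.ofReal_add ht ht, ← ENNReal.ofReal_add ht (by positivity)]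
    congr 2
    ring
  have hVvol : ∀ i < n, volume (V i) ≤
      ENNReal.ofReal (48 / D₁) * ∑ j ∈ Finset.range N, volume (S i j) := by
    intro i hi
    have h1 := (hWBi i hi 0 (by norm_num)).1
    have h2 := (hWBi i hi 1 (by norm_num)).1
    have h4 := (hWBi i hi 2 (by norm_num)).1
    have h5 : volume (V i) ≤ volume (U i 0) + (volume (U i 1) + volume (U i 2)) :=
      (measure_union_le _ _).trans (add_le_add le_rfl (measure_union_le _ _))
    refine h5.trans ((add_le_add h1 (add_le_add h2 h4)).trans (le_of_eq ?_))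
    rw [h3 _ _ (by positivity)]
    congr 2
    ring
  have hVden : ∀ i < n, ∀ x₀ : Pl, volume (V i ∩ DQ (a i) x₀) ≤
      ENNReal.ofReal (48 * D₀ / D₁) * volume (DQ (a i) x₀) := by
    intro i hi x₀
    have h1 := (hWBi i hi 0 (by norm_num)).2 x₀
    have h2 := (hWBi i hi 1 (by norm_num)).2 x₀
    have h4 := (hWBi i hi 2 (by norm_num)).2 x₀
    have h5 : volume (V i ∩ DQ (a i) x₀) ≤ volume (U i 0 ∩ DQ (a i) x₀) +
        (volume (U i 1 ∩ DQ (a i) x₀) + volume (U i 2 ∩ DQ (a i) x₀)) := by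
      have h6 : V i ∩ DQ (a i) x₀ = (U i 0 ∩ DQ (a i) x₀) ∪ ((U i 1 ∩ DQ (a i) x₀) ∪
          (U i 2 ∩ DQ (a i) x₀)) := by
        rw [hV]
        simp only [Set.union_inter_distrib_right]
      rw [h6]
      exact (measure_union_le _ _).trans (add_le_add le_rfl (measure_union_le _ _))
    refine h5.trans ((add_le_add h1 (add_le_add h2 h4)).trans (le_of_eq ?_))
    rw [h3 _ _ (by positivity)]
    congr 2
    ring
  have hUDQ : ∀ i c, ∀ x ∈ U i c, DQ (a (i + 1)) x ⊆ U i c := by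
    intro i c x hx y hy
    rw [hU] at hx ⊢
    simp only [mem_iUnion] at hx ⊢
    obtain ⟨x', hx', hxx⟩ := hx
    exact ⟨x', hx', fun k => (hy k).trans (hxx k)⟩
  have hVDQ : ∀ i, ∀ x ∈ V i, DQ (a (i + 1)) x ⊆ V i := by
    intro i x hx
    rcases hx with hx | hx | hx
    · exact (hUDQ i 0 x hx).trans subset_union_left
    · exact ((hUDQ i 1 x hx).trans subset_union_left).trans subset_union_right
    · exact ((hUDQ i 2 x hx).trans subset_union_right).trans subset_union_right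
  have hanti : ∀ i i' : ℕ, i ≤ i' → i' ≤ n → a i' ≤ a i := by
    intro i i' hii
    induction i', hii using Nat.le_induction with
    | base => intro _; exact le_rfl
    | succ k hk ih => intro hkn; exact (ha k (by omega)).trans (ih (by omega))
  set Tt : ℝ≥0∞ := ∑ i ∈ Finset.range n, ∑ j ∈ Finset.range N, volume (S i j) with hTt
  have hone : ∀ T ∈ (Finset.range n).powersetCard e, volume {x | ∀ i ∈ T, x ∈ V i} ≤
      ENNReal.ofReal ((48 * D₀ / D₁) ^ (e - 1)) * (ENNReal.ofReal (48 / D₁) * Tt) := by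
    intro T hT
    rw [Finset.mem_powersetCard] at hT
    obtain ⟨hTn, hTe⟩ := hT
    set ix : ℕ → ℕ := fun t => if h : t < e then T.orderEmbOfFin hTe ⟨t, h⟩ else 0 with hix
    have hixT : ∀ t < e, ix t ∈ T := by
      intro t ht
      rw [hix]
      simp only [ht, dif_pos]
      exact Finset.orderEmbOfFin_mem T hTe ⟨t, ht⟩
    have hixn : ∀ t < e, ix t < n := fun t ht => Finset.mem_range.mp (hTn (hixT t ht))
    have hixs : ∀ t, t + 1 < e → ix t < ix (t + 1) := by
      intro t ht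
      have ht' : t < e := by omega
      rw [hix]
      simp only [ht, ht', dif_pos]
      exact (T.orderEmbOfFin hTe).strictMono (Fin.mk_lt_mk.mpr (Nat.lt_succ_self t))
    have hW := hWAG e (fun t => a (ix t)) (fun t => a (ix t + 1)) (fun t => V (ix t))
      (48 * D₀ / D₁) he (by positivity) (fun t ht => ha _ (hixn t ht))
      (fun t ht => hanti _ _ (hixs t ht) (hixn (t + 1) ht).le)
      (fun t _ x hx => hVDQ _ x hx) (fun t ht x => hVden _ (hixn t ht) x)
    have h0 : ix 0 < n := hixn 0 (by omega)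
    calc volume {x | ∀ i ∈ T, x ∈ V i} ≤ volume {x | ∀ t < e, x ∈ V (ix t)} := by
          apply measure_mono
          intro x hx t ht
          exact hx _ (hixT t ht)
      _ ≤ ENNReal.ofReal ((48 * D₀ / D₁) ^ (e - 1)) * volume (V (ix 0)) := hW
      _ ≤ ENNReal.ofReal ((48 * D₀ / D₁) ^ (e - 1)) * (ENNReal.ofReal (48 / D₁) *
            ∑ j ∈ Finset.range N, volume (S (ix 0) j)) := by
          gcongr
          exact hVvol _ h0
      _ ≤ _ := by
          gcongr
          exact Finset.single_le_sum (f := fun i => ∑ j ∈ Finset.range N, volume (S i j))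
            (fun _ _ => bot_le) (Finset.mem_range.mpr h0)
  have hsub : {x | e ≤ {i : ℕ | i < n ∧
        (∑ j ∈ Finset.range N, volume (S i j ∩ Sq x (4 * (2 : ℝ) ^ (a i))) ≤
          ENNReal.ofReal (D₀ * (4 : ℝ) ^ (a i))) ∧
        ¬ ∀ c < 3, Dens (S i) N x (r i c) D₁}.ncard} ⊆
      ⋃ T ∈ (Finset.range n).powersetCard e, {x | ∀ i ∈ T, x ∈ V i} := by
    intro x hx
    change e ≤ _ at hx
    set B : Set ℕ := {i : ℕ | i < n ∧
        (∑ j ∈ Finset.range N, volume (S i j ∩ Sq x (4 * (2 : ℝ) ^ (a i))) ≤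
          ENNReal.ofReal (D₀ * (4 : ℝ) ^ (a i))) ∧
        ¬ ∀ c < 3, Dens (S i) N x (r i c) D₁} with hB
    have hBf : B.Finite := (Set.finite_lt_nat n).subset fun i hi => hi.1
    rw [Set.ncard_eq_toFinset_card B hBf] at hx
    obtain ⟨T, hTB, hTe⟩ := Finset.exists_subset_card_eq hx
    have hTB' : ∀ i ∈ T, i ∈ B := fun i hi => hBf.mem_toFinset.mp (hTB hi)
    simp only [mem_iUnion]
    refine ⟨T, Finset.mem_powersetCard.mpr ⟨fun i hi => Finset.mem_range.mpr (hTB' i hi).1, hTe⟩, ?_⟩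
    intro i hi
    obtain ⟨-, h5, h6⟩ := hTB' i hi
    push Not at h6
    obtain ⟨c, hc, h7⟩ := h6
    have h8 : x ∈ U i c := by
      rw [hU]
      simp only [mem_iUnion]
      exact ⟨x, ⟨h5, h7⟩, fun _ => rfl⟩
    interval_cases c
    · exact Or.inl h8
    · exact Or.inr (Or.inl h8)
    · exact Or.inr (Or.inr h8)
  refine (measure_mono hsub).trans ((measure_biUnion_finset_le _ _).trans ?_)
  refine (Finset.sum_le_sum hone).trans ?_
  rw [Finset.sum_const, nsmul_eq_mul]
  have hcard : (((Finset.range n).powersetCard e).card : ℝ≥0∞) ≤ ENNReal.ofReal ((2 : ℝ) ^ n) := by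
    have h1 : ((Finset.range n).powersetCard e).card ≤ 2 ^ n := by
      rw [Finset.card_powersetCard, Finset.card_range]
      exact Nat.choose_le_two_pow n e
    have h2 : ENNReal.ofReal ((2 : ℝ) ^ n) = ((2 ^ n : ℕ) : ℝ≥0∞) := by
      rw [← ENNReal.ofReal_natCast]
      push_cast
      rfl
    rw [h2]
    exact_mod_cast h1
  calc (((Finset.range n).powersetCard e).card : ℝ≥0∞) *
        (ENNReal.ofReal ((48 * D₀ / D₁) ^ (e - 1)) * (ENNReal.ofReal (48 / D₁) * Tt))
      ≤ ENNReal.ofReal ((2 : ℝ) ^ n) *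
        (ENNReal.ofReal ((48 * D₀ / D₁) ^ (e - 1)) * (ENNReal.ofReal (48 / D₁) * Tt)) := by gcongr
    _ = _ := by
        rw [ENNReal.ofReal_mul (p := (2 : ℝ) ^ n * (48 * D₀ / D₁) ^ (e - 1)) (by positivity),
          ENNReal.ofReal_mul (p := (2 : ℝ) ^ n) (by positivity)]
        ring

end Pool.Agent.Helper17.P3
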